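import Pool.Agent.TH502.RG.Cone

/-!
# Good ranges for circuit covers: odd members exclude differences `2 m`

Definitions (`Pool/Agent/TH502/PK/Defs.lean`, `Pool/Agent/TH502/RG/Defs.lean`): finite multigraphs
`MG V E` (parallel edges and loops allowed), circuits `IsCircuit`, circuit covers `FaithfulCover`,
`InCone`, `InLat` (the weighting lies in the cone, in the lattice of the circuits), `GoodRange`.

Theorem. Let `R` contain an odd number `m` and a number `b` such that `b - 2 m` is a (possibly
empty) sum of members of `R`. Then `R` is a bad range. For `m = 1` this contains the theorem of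
Seymour that `{1, k}` is bad for `k ≥ 2`. It shows that `{m, r m}` is bad for all odd `m` and all
`r ≥ 2`, and that a good range with an odd member `m` contains no two numbers with difference `2 m`.
In particular a good range which contains all large even numbers consists of even numbers: the
even numbers in the question cannot be joined by any odd number, even if finitely many even numbers
are given up. The intervals `{k, ..., 2 k}` for odd `k`, and `{k, ..., 2 k + 2}` for all `k`, are bad
(the starting result `FiveQuarters` shows that `{k, ..., K}` is good if `4 K + 52 ≤ 5 k`).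

Proof: the Petersen graph with weight `m` on a pentagon and the disjoint pentagram, `b` on the
perfect matching between them, and edges of the weights `a_1, ..., a_s`, `b - 2 m = a_1 + ... + a_s`,
parallel to every edge of the matching. All vertex cuts are tight, so every circuit of a cover uses
an even number of the edges of the pentagon, but their total weight is `5 m`.
-/

set_option autoImplicit false

namespace Pool.Agent.Results.MP_20b97f_co.OddMembers

open Pool.Agent.TH502.PK

/-- A range with an odd member `m` and a member `b` such that `b - 2 m` is a possibly empty sum of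
members is bad; in particular a range which contains an odd number and all large even numbers is
bad, and so are the intervals `{k, ..., 2 k}` for odd `k` and `{k, ..., 2 k + 2}` for all `k`. -/
theorem result :
    (∀ (R : Set ℕ) (m b c : ℕ), m ∈ R → Odd m → b ∈ R → c ∈ AddSubmonoid.closure R →
      b = 2 * m + c → ¬ GoodRange R) ∧
    (∀ (R : Set ℕ) (N : ℕ), (∀ n, N ≤ n → Even n → n ∈ R) → (∃ m ∈ R, Odd m) → ¬ GoodRange R) ∧
    (∀ k : ℕ, (Odd k → ¬ GoodRange (Set.Icc k (2 * k))) ∧ ¬ GoodRange (Set.Icc k (2 * k + 2))) := by
  have key : ∀ (k K m : ℕ), k ≤ m → Odd m → 2 * m ≤ K → ¬ GoodRange (Set.Icc k K) := by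
    intro k K m hkm ho hK
    exact bad_of_odd _ m (2 * m) 0 ⟨hkm, by omega⟩ ho ⟨by omega, hK⟩ (AddSubmonoid.zero_mem _) rfl
  refine ⟨fun R m b c hm ho hb hc h => bad_of_odd R m b c hm ho hb hc h, ?_, fun k =>
    ⟨fun ho => key k _ k le_rfl ho le_rfl, ?_⟩⟩
  swap
  · rcases Nat.even_or_odd k with he | ho
    · exact key k _ (k + 1) (by omega) he.add_one (by omega)
    · exact key k _ k le_rfl ho (by omega)
  rintro R N hR ⟨m, hm, ho⟩
  have h1 : 2 * N ∈ R := hR _ (by omega) (even_two_mul N)
  have h2 : 2 * m + 2 * N ∈ R := hR _ (by omega) ((even_two_mul m).add (even_two_mul N))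
  exact bad_of_odd R m _ (2 * N) hm ho h2 (AddSubmonoid.subset_closure h1) rfl

end Pool.Agent.Results.MP_20b97f_co.OddMembers
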